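import Pool.Agent.H58.StatB

namespace Pool.Agent.Results.MP_7009f9_gt.Disproof
open Pool.Agent.H58.Stat Set Filter MeasureTheory
open scoped ContDiff

theorem result : ∃ X : ℝ × ℝ → Fin 4 → ℝ, ContDiff ℝ ∞ X ∧
    (∀ p q, X p = X q ↔ p.1 = q.1 ∧ ∃ n : ℤ, q.2 = p.2 + 2 * Real.pi * n) ∧
    (∀ p, 0 < lam X p ∧ lor (dy X p) (dy X p) = lam X p ∧ lor (dx X p) (dy X p) = 0) ∧
    (∀ p, lap X p = 0) ∧
    (∀ K, IsCompact K → IsCompact (X ⁻¹' K ∩ univ ×ˢ Icc 0 (2 * Real.pi))) ∧
    (∀ γ : ℝ → ℝ × ℝ, ContDiff ℝ 1 γ → Tendsto (fun t => |(γ t).1|) atTop atTop →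
      Tendsto (fun T => ∫ t in (0 : ℝ)..T, √(lor (deriv (X ∘ γ) t) (deriv (X ∘ γ) t)))
        atTop atTop) ∧
    ∫⁻ p in univ ×ˢ Icc 0 (2 * Real.pi), ENNReal.ofReal (|gaussK X p| * lam X p) = ⊤ := by
  obtain ⟨Φ, hd, h0, h1, h2, h3⟩ := surf
  have cd := XX_cd hd
  have e2 : ∀ p, lor (dy (XX Φ) p) (dy (XX Φ) p) = lm p := fun p => by
    rw [← h1, dy_XX hd]; simp [lor, XX]; ring
  have e1 : ∀ p, lam (XX Φ) p = lm p := fun p => by
    have := congrArg Complex.re (h0 (p.1 + p.2 * Complex.I))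
    rw [← h1, lam, dx_XX hd]
    simp [lor, XX, sq] at this ⊢
    linarith
  have e3 : ∀ p, lor (dx (XX Φ) p) (dy (XX Φ) p) = 0 := fun p => by
    have := congrArg Complex.im (h0 (p.1 + p.2 * Complex.I))
    rw [dx_XX hd, dy_XX hd]
    simp [lor, XX, sq] at this ⊢
    linarith
  refine ⟨XX Φ, cd, h3, fun p => ⟨e1 p ▸ lm_pos p, (e2 p).trans (e1 p).symm, e3 p⟩, lap_XX hd,
    fun K hK => ?_, fun γ hγ ht => ?_, ?_⟩
  · obtain ⟨M, hM⟩ := hK.isBounded.exists_norm_le
    refine ((isCompact_Icc (a := -M) (b := M)).prod isCompact_Icc).of_isClosed_subset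
      ((hK.isClosed.preimage cd.continuous).inter (isClosed_univ.prod isClosed_Icc))
      fun p hp => ⟨?_, hp.2.2⟩
    have a := abs_le.1 ((norm_le_pi_norm (XX Φ p) 0).trans (hM _ hp.1))
    have b := abs_le.1 ((norm_le_pi_norm (XX Φ p) 3).trans (hM _ hp.1))
    constructor <;> linarith [h2 p]
  · have gd := hγ.differentiable one_ne_zero
    have gc : Continuous (deriv γ) := hγ.continuous_deriv le_rfl
    have cc : Continuous (deriv (XX Φ ∘ γ)) :=
      ((cd.of_le (by simp)).comp hγ).continuous_deriv le_rfl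
    have key : ∀ t, |(deriv γ t).1| ≤ √(lor (deriv (XX Φ ∘ γ) t) (deriv (XX Φ ∘ γ) t)) := fun t => by
      have a := ((cd.differentiable (by simp) (γ t)).hasFDerivAt.comp_hasDerivAt t
        (gd t).hasDerivAt).deriv
      have b : deriv γ t = (deriv γ t).1 • ((1, 0) : ℝ × ℝ) + (deriv γ t).2 • ((0, 1) : ℝ × ℝ) := by
        simp
      rw [b, map_add, map_smul, map_smul] at a
      refine Real.abs_le_sqrt ?_
      have c : lor (deriv (XX Φ ∘ γ) t) (deriv (XX Φ ∘ γ) t) = (deriv γ t).1 ^ 2 * lam (XX Φ) (γ t) +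
          (deriv γ t).2 ^ 2 * lor (dy (XX Φ) (γ t)) (dy (XX Φ) (γ t)) + 2 * (deriv γ t).1 *
          (deriv γ t).2 * lor (dx (XX Φ) (γ t)) (dy (XX Φ) (γ t)) := by
        rw [a]; simp only [lam, lor, dx, dy, Pi.add_apply, Pi.smul_apply, smul_eq_mul]; ring
      rw [c, e1, e2, e3]
      nlinarith [lm_ge (γ t), sq_nonneg (deriv γ t).1, sq_nonneg (deriv γ t).2]
    refine tendsto_atTop_mono' _ ?_ (tendsto_atTop_add_const_right _ (-|(γ 0).1|) ht)
    filter_upwards [eventually_ge_atTop 0] with T hT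
    have f := intervalIntegral.integral_eq_sub_of_hasDerivAt (a := 0) (b := T)
      (fun t _ => (gd t).hasDerivAt.fst) (Continuous.intervalIntegrable (by fun_prop) _ _)
    refine (abs_sub_abs_le_abs_sub _ _).trans ?_
    rw [← f]
    refine (intervalIntegral.abs_integral_le_integral_abs hT).trans
      (intervalIntegral.integral_mono_on hT (Continuous.intervalIntegrable (by fun_prop) _ _)
        (Continuous.intervalIntegrable (by unfold lor; fun_prop) _ _) fun t _ => key t)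
  · by_contra hf
    refine not_int ?_
    have c : Continuous (lap fun p => Real.log (lm p)) :=
      (dx_cd (dx_cd lm_cd)).continuous.add (dy_cd (dy_cd lm_cd)).continuous
    have : IntegrableOn (fun p => (1 / 2 : ℝ) * lap (fun p => Real.log (lm p)) p)
        (univ ×ˢ Icc 0 (2 * Real.pi)) := by
      refine ⟨(c.const_mul _).aestronglyMeasurable, ?_⟩
      rw [hasFiniteIntegral_iff_norm]
      refine lt_of_eq_of_lt (lintegral_congr fun p => ?_) (lt_top_iff_ne_top.2 hf)
      have := lm_pos p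
      simp only [gaussK, e1, abs_div, abs_neg, Real.norm_eq_abs, abs_mul, abs_of_pos this,
        abs_one, abs_two]
      congr 1
      field_simp
    exact (integrable_const_mul_iff (by simp) _).1 this

end Pool.Agent.Results.MP_7009f9_gt.Disproof
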